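import Pool.Agent.X145.McKay.Sign

set_option autoImplicit false
open MeasureTheory ProbabilityTheory Filter Topology Set
open scoped ENNReal

namespace Pool.Agent.X145.McKay

/-- lower incomplete gamma function with parameter `2r` -/
noncomputable def GG (r y : ℝ) : ℝ := ∫ R in (0 : ℝ)..y, R ^ (2 * r - 1) * Real.exp (-R)

theorem g_int (s : ℝ) (hs : 0 < s) : IntegrableOn (fun R : ℝ => R ^ (s - 1) * Real.exp (-R)) (Ioi 0) := by
  refine (Real.GammaIntegral_convergent hs).congr (Eventually.of_forall fun R => ?_)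
  simp only
  ring

theorem g_ii (s : ℝ) (hs : 0 < s) (y : ℝ) (hy : 0 ≤ y) :
    IntervalIntegrable (fun R : ℝ => R ^ (s - 1) * Real.exp (-R)) volume 0 y := by
  rw [intervalIntegrable_iff_integrableOn_Ioc_of_le hy]
  exact (g_int s hs).mono_set Ioc_subset_Ioi_self

theorem GG_deriv (r y : ℝ) (hr : 0 < r) (hy : 0 < y) :
    HasDerivAt (GG r) (y ^ (2 * r - 1) * Real.exp (-y)) y := by
  unfold GG
  refine intervalIntegral.integral_hasDerivAt_right (g_ii (2 * r) (by positivity) y hy.le) ?_ ?_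
  · exact (by fun_prop : Measurable fun R : ℝ => R ^ (2 * r - 1) * Real.exp (-R)).stronglyMeasurable.stronglyMeasurableAtFilter
  · exact (Real.continuousAt_rpow_const y _ (Or.inl hy.ne')).mul (by fun_prop)

theorem GG_nonneg (r y : ℝ) (hy : 0 ≤ y) : 0 ≤ GG r y := by
  unfold GG
  refine intervalIntegral.integral_nonneg hy fun R hR => ?_
  have := hR.1
  positivity

theorem GG_le (r y : ℝ) (hr : 0 < r) (hy : 0 ≤ y) : GG r y ≤ Real.Gamma (2 * r) := by
  unfold GG
  rw [intervalIntegral.integral_of_le hy, Real.Gamma_eq_integral (by positivity)]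
  have h1 : ∫ x in Ioi (0 : ℝ), Real.exp (-x) * x ^ (2 * r - 1) =
      ∫ x in Ioi (0 : ℝ), x ^ (2 * r - 1) * Real.exp (-x) :=
    integral_congr_ae (Eventually.of_forall fun R => mul_comm _ _)
  rw [h1]
  refine setIntegral_mono_set (g_int (2 * r) (by positivity)) ?_ Ioc_subset_Ioi_self.eventuallyLE
  filter_upwards [ae_restrict_mem measurableSet_Ioi] with R hR
  simp only [mem_Ioi] at hR
  simp only [Pi.zero_apply]
  positivity

theorem lint_G (r y : ℝ) (hr : 0 < r) (hy : 0 ≤ y) :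
    ∫⁻ R in Ioc 0 y, ENNReal.ofReal (R ^ (2 * r - 1) * Real.exp (-R)) = ENNReal.ofReal (GG r y) := by
  unfold GG
  rw [intervalIntegral.integral_of_le hy, ofReal_integral_eq_lintegral_ofReal]
  · exact (g_int (2 * r) (by positivity)).mono_set Ioc_subset_Ioi_self
  · filter_upwards [ae_restrict_mem measurableSet_Ioc] with R hR
    have := hR.1
    simp only [Pi.zero_apply]
    positivity

/-- the distribution function -/
noncomputable def FF (r t a : ℝ) : ℝ :=
  ∫ u in Ioo (-1 : ℝ) 1, Cr r * (1 - u ^ 2) ^ (r - 1) * GG r (t / (1 + a * u))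

theorem den_pos' (a u : ℝ) (ha : |a| < 1) (hu : u ∈ Ioo (-1 : ℝ) 1) : 0 < 1 + a * u := by
  obtain ⟨h1, h2⟩ := abs_lt.1 ha
  nlinarith [hu.1, hu.2]

theorem GG_comp_meas (r t a : ℝ) (hr : 0 < r) (ht : 0 < t) (ha : |a| < 1) :
    AEStronglyMeasurable (fun u => Cr r * (1 - u ^ 2) ^ (r - 1) * GG r (t / (1 + a * u)))
      (volume.restrict (Ioo (-1 : ℝ) 1)) := by
  refine ContinuousOn.aestronglyMeasurable ?_ measurableSet_Ioo
  have c1 : ContinuousOn (fun u : ℝ => (1 - u ^ 2) ^ (r - 1)) (Ioo (-1) 1) :=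
    (by fun_prop : ContinuousOn (fun u : ℝ => 1 - u ^ 2) (Ioo (-1) 1)).rpow_const
      fun u hu => Or.inl (by nlinarith [hu.1, hu.2])
  have c2 : ContinuousOn (fun u : ℝ => t / (1 + a * u)) (Ioo (-1) 1) :=
    continuousOn_const.div (by fun_prop) fun u hu => (den_pos' a u ha hu).ne'
  have c3 : ContinuousOn (fun u : ℝ => GG r (t / (1 + a * u))) (Ioo (-1) 1) := by
    have h : ContinuousOn (GG r) (Ioi 0) := fun y hy => (GG_deriv r y hr hy).continuousAt.continuousWithinAt
    exact h.comp c2 fun u hu => div_pos ht (den_pos' a u ha hu)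
  exact (continuousOn_const.mul c1).mul c3

theorem FF_integrable (r t a : ℝ) (hr : 0 < r) (ht : 0 < t) (ha : |a| < 1) :
    IntegrableOn (fun u => Cr r * (1 - u ^ 2) ^ (r - 1) * GG r (t / (1 + a * u))) (Ioo (-1 : ℝ) 1) := by
  refine Integrable.mono' (((w_int r hr).const_mul (Cr r)).mul_const (Real.Gamma (2 * r)))
    (GG_comp_meas r t a hr ht ha) ?_
  filter_upwards [ae_restrict_mem measurableSet_Ioo] with u hu
  have h1 := (w_nonneg r u hu).le
  have h2 := (Cr_pos r hr).le
  have h3 : 0 ≤ t / (1 + a * u) := (div_pos ht (den_pos' a u ha hu)).le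
  rw [Real.norm_of_nonneg (mul_nonneg (mul_nonneg h2 h1) (GG_nonneg r _ h3))]
  exact mul_le_mul_of_nonneg_left (GG_le r _ hr h3) (mul_nonneg h2 h1)

theorem law_eq (r t a : ℝ) (hr : 0 < r) (ht : 0 < t) (ha : |a| < 1) :
    ((gammaMeasure r 1).prod (gammaMeasure r 1)) {p : ℝ × ℝ | (1 - a) * p.1 + (1 + a) * p.2 ≤ t} =
      ENNReal.ofReal (FF r t a) := by
  have hS : MeasurableSet {p : ℝ × ℝ | (1 - a) * p.1 + (1 + a) * p.2 ≤ t} :=
    measurableSet_le (by fun_prop) measurable_const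
  rw [← lintegral_indicator_one hS, main_formula r hr _ (measurable_one.indicator hS)]
  unfold FF
  rw [ofReal_integral_eq_lintegral_ofReal (FF_integrable r t a hr ht ha)]
  · refine setLIntegral_congr_fun measurableSet_Ioo fun u hu => ?_
    have hd := den_pos' a u ha hu
    have hy : 0 < t / (1 + a * u) := div_pos ht hd
    have hw := (w_nonneg r u hu).le
    have hC := (Cr_pos r hr).le
    have h1 : ∀ R ∈ Ioi (0 : ℝ),
        ENNReal.ofReal (Cr r * (1 - u ^ 2) ^ (r - 1) * (R ^ (2 * r - 1) * Real.exp (-R))) *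
          ({p : ℝ × ℝ | (1 - a) * p.1 + (1 + a) * p.2 ≤ t}.indicator 1 (R * (1 - u) / 2, R * (1 + u) / 2)) =
        ENNReal.ofReal (Cr r * (1 - u ^ 2) ^ (r - 1)) *
          (Iic (t / (1 + a * u))).indicator (fun R => ENNReal.ofReal (R ^ (2 * r - 1) * Real.exp (-R))) R := by
      intro R hR
      have hiff : ((R * (1 - u) / 2, R * (1 + u) / 2) ∈ {p : ℝ × ℝ | (1 - a) * p.1 + (1 + a) * p.2 ≤ t}) ↔
          R ∈ Iic (t / (1 + a * u)) := by
        rw [mem_Iic, le_div_iff₀ hd]
        show (1 - a) * (R * (1 - u) / 2) + (1 + a) * (R * (1 + u) / 2) ≤ t ↔ _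
        rw [show (1 - a) * (R * (1 - u) / 2) + (1 + a) * (R * (1 + u) / 2) = R * (1 + a * u) by ring]
      by_cases hm : R ∈ Iic (t / (1 + a * u))
      · rw [indicator_of_mem hm, indicator_of_mem (hiff.2 hm), Pi.one_apply, mul_one,
          ENNReal.ofReal_mul (mul_nonneg hC hw)]
      · rw [indicator_of_notMem hm, indicator_of_notMem (fun h => hm (hiff.1 h)), mul_zero, mul_zero]
    rw [setLIntegral_congr_fun measurableSet_Ioi h1, lintegral_const_mul _ (by
      exact Measurable.indicator (by fun_prop) measurableSet_Iic),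
      ENNReal.ofReal_mul (mul_nonneg hC hw), ← lint_G r _ hr hy.le,
      lintegral_indicator measurableSet_Iic, Measure.restrict_restrict measurableSet_Iic]
    congr 3
    rw [inter_comm, Ioi_inter_Iic]
  · filter_upwards [ae_restrict_mem measurableSet_Ioo] with u hu
    have h1 := (w_nonneg r u hu).le
    have h2 := (Cr_pos r hr).le
    have h3 : 0 ≤ t / (1 + a * u) := (div_pos ht (den_pos' a u ha hu)).le
    exact mul_nonneg (mul_nonneg h2 h1) (GG_nonneg r _ h3)

theorem FF_deriv (r t a0 : ℝ) (hr : 0 < r) (ht : 0 < t) (ha : |a0| < 1) :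
    HasDerivAt (fun a => FF r t a)
      (∫ u in Ioo (-1 : ℝ) 1, Cr r * (1 - u ^ 2) ^ (r - 1) *
        (-(u / t) * ((t / (1 + a0 * u)) ^ (2 * r + 1) * Real.exp (-(t / (1 + a0 * u)))))) a0 := by
  obtain ⟨b, hb1, hb2⟩ := exists_between ha
  have hb0 : 0 ≤ b := (abs_nonneg a0).trans hb1.le
  have hs : {a : ℝ | |a| < b} ∈ 𝓝 a0 := (isOpen_lt continuous_abs continuous_const).mem_nhds hb1
  unfold FF
  refine (hasDerivAt_integral_of_dominated_loc_of_deriv_le (μ := volume.restrict (Ioo (-1 : ℝ) 1))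
    (F := fun a u => Cr r * (1 - u ^ 2) ^ (r - 1) * GG r (t / (1 + a * u)))
    (F' := fun a u => Cr r * (1 - u ^ 2) ^ (r - 1) *
        (-(u / t) * ((t / (1 + a * u)) ^ (2 * r + 1) * Real.exp (-(t / (1 + a * u))))))
    (bound := fun u => Cr r * (1 - u ^ 2) ^ (r - 1) * ((1 / t) * (t / (1 - b)) ^ (2 * r + 1)))
    hs ?_ (FF_integrable r t a0 hr ht ha) ?_ ?_ ?_ ?_).2
  · filter_upwards [hs] with a ha'
    exact GG_comp_meas r t a hr ht (lt_trans ha' hb2)
  · exact (by fun_prop : Measurable fun u : ℝ => Cr r * (1 - u ^ 2) ^ (r - 1) *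
        (-(u / t) * ((t / (1 + a0 * u)) ^ (2 * r + 1) * Real.exp (-(t / (1 + a0 * u)))))).aestronglyMeasurable
  · filter_upwards [ae_restrict_mem measurableSet_Ioo] with u hu a ha'
    have ha'' : |a| < b := ha'
    have hd : 0 < 1 + a * u := den_pos' a u (lt_trans ha'' hb2) hu
    have hd2 : 1 - b ≤ 1 + a * u := by
      have h1 : |a * u| ≤ b * 1 := by
        rw [abs_mul]
        exact mul_le_mul ha''.le (abs_le.2 ⟨hu.1.le, hu.2.le⟩) (abs_nonneg _) hb0
      have := neg_abs_le (a * u)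
      linarith
    have hb3 : 0 < 1 - b := by linarith
    have hw := (w_nonneg r u hu).le
    have hC := (Cr_pos r hr).le
    rw [norm_mul, Real.norm_of_nonneg (mul_nonneg hC hw)]
    refine mul_le_mul_of_nonneg_left ?_ (mul_nonneg hC hw)
    rw [norm_mul, norm_neg, Real.norm_eq_abs, abs_div, abs_of_pos ht,
      Real.norm_of_nonneg (by positivity)]
    have hu1 : |u| ≤ 1 := abs_le.2 ⟨hu.1.le, hu.2.le⟩
    have e1 : |u| / t ≤ 1 / t := div_le_div_of_nonneg_right hu1 ht.le
    have e2 : (t / (1 + a * u)) ^ (2 * r + 1) ≤ (t / (1 - b)) ^ (2 * r + 1) :=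
      Real.rpow_le_rpow (by positivity) (div_le_div_of_nonneg_left ht.le hb3 hd2) (by positivity)
    have e3 : Real.exp (-(t / (1 + a * u))) ≤ 1 := by
      rw [Real.exp_le_one_iff]
      have : 0 < t / (1 + a * u) := by positivity
      linarith
    have e4 : (t / (1 + a * u)) ^ (2 * r + 1) * Real.exp (-(t / (1 + a * u))) ≤
        (t / (1 - b)) ^ (2 * r + 1) := by
      calc _ ≤ (t / (1 - b)) ^ (2 * r + 1) * 1 := mul_le_mul e2 e3 (Real.exp_pos _).le (by positivity)
        _ = _ := mul_one _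
    exact mul_le_mul e1 e4 (by positivity) (by positivity)
  · exact ((w_int r hr).const_mul (Cr r)).mul_const _
  · filter_upwards [ae_restrict_mem measurableSet_Ioo] with u hu a ha'
    have ha'' : |a| < b := ha'
    have hd : 0 < 1 + a * u := den_pos' a u (lt_trans ha'' hb2) hu
    have hy : 0 < t / (1 + a * u) := div_pos ht hd
    have d1 : HasDerivAt (fun a : ℝ => 1 + a * u) u a := by
      simpa using ((hasDerivAt_id a).mul_const u).const_add 1
    have d2 : HasDerivAt (fun a : ℝ => t / (1 + a * u)) (-(t * u) / (1 + a * u) ^ 2) a := by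
      refine ((hasDerivAt_const a t).div d1 hd.ne').congr_deriv ?_
      ring
    have d3 := ((GG_deriv r _ hr hy).comp a d2).const_mul (Cr r * (1 - u ^ 2) ^ (r - 1))
    refine d3.congr_deriv ?_
    congr 1
    have e1 : (t / (1 + a * u)) ^ (2 * r + 1) = (t / (1 + a * u)) ^ (2 * r - 1) * (t / (1 + a * u)) ^ 2 := by
      rw [← Real.rpow_two, ← Real.rpow_add hy]
      congr 1
      ring
    rw [e1]
    generalize (t / (1 + a * u)) ^ (2 * r - 1) = A
    generalize Real.exp (-(t / (1 + a * u))) = B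
    obtain ⟨D, hD⟩ : ∃ D, D = 1 + a * u := ⟨_, rfl⟩
    rw [← hD] at hd ⊢
    field_simp

/-- strict monotonicity in `a` -/
theorem FF_strictMono (r t : ℝ) (hr : 0 < r) (ht : 0 < t) (ht2 : t ≤ 2 * r) :
    StrictMonoOn (fun a => FF r t a) (Ico 0 1) := by
  refine strictMonoOn_of_deriv_pos (convex_Ico 0 1) ?_ ?_
  · intro a ha
    exact (FF_deriv r t a hr ht (by rw [abs_of_nonneg ha.1]; exact ha.2)).continuousAt.continuousWithinAt
  · intro a ha
    rw [interior_Ico] at ha
    rw [(FF_deriv r t a hr ht (by rw [abs_of_pos ha.1]; exact ha.2)).deriv]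
    have h := sign_lemma r t a hr ha.1 ha.2 ht ht2
    rw [intervalIntegral.integral_of_le (by norm_num), integral_Ioc_eq_integral_Ioo] at h
    have e : ∫ u in Ioo (-1 : ℝ) 1, Cr r * (1 - u ^ 2) ^ (r - 1) *
        (-(u / t) * ((t / (1 + a * u)) ^ (2 * r + 1) * Real.exp (-(t / (1 + a * u))))) =
        -(Cr r * t ^ (2 * r)) * ∫ u in Ioo (-1 : ℝ) 1, nu r t a u * (u / (1 + a * u)) := by
      rw [← integral_const_mul]
      refine setIntegral_congr_fun measurableSet_Ioo fun u hu => ?_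
      have hd : 0 < 1 + a * u := den_pos a u ha.1.le ha.2 ⟨hu.1.le, hu.2.le⟩
      have e1 : (t / (1 + a * u)) ^ (2 * r + 1) = t ^ (2 * r) * t * ((1 + a * u) ^ (-(2 * r)) / (1 + a * u)) := by
        rw [Real.div_rpow ht.le hd.le, Real.rpow_add_one ht.ne', Real.rpow_add_one hd.ne',
          Real.rpow_neg hd.le]
        field_simp
      rw [e1]
      unfold nu
      field_simp
    rw [e]
    have h2 : 0 < Cr r * t ^ (2 * r) := mul_pos (Cr_pos r hr) (by positivity)
    nlinarith

end Pool.Agent.X145.McKay
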