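import Pool.Agent.X145.McKay.Fn

set_option autoImplicit false
open MeasureTheory ProbabilityTheory Filter Topology Set
open scoped ENNReal

namespace Pool.Agent.X145.McKay

theorem gamma_half (s : ℝ) (hs : 0 < s) :
    Real.Gamma s / 2 ≤ ∫ x in (0 : ℝ)..s, x ^ (s - 1) * Real.exp (-x) := by
  have hint := g_int s hs
  have himg : (fun v : ℝ => s ^ 2 / v) '' (Ioo 0 s) = Ioi s := by
    ext x
    constructor
    · rintro ⟨v, hv, rfl⟩
      simp only [mem_Ioi]
      rw [lt_div_iff₀ hv.1]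
      nlinarith [hv.1, hv.2]
    · intro hx
      simp only [mem_Ioi] at hx
      have hx0 : 0 < x := hs.trans hx
      refine ⟨s ^ 2 / x, ⟨by positivity, ?_⟩, ?_⟩
      · rw [div_lt_iff₀ hx0]; nlinarith
      · simp only
        field_simp
  have hinj : InjOn (fun v : ℝ => s ^ 2 / v) (Ioo 0 s) := by
    intro v hv w hw h
    simp only at h
    rw [div_eq_div_iff hv.1.ne' hw.1.ne'] at h
    have : s ^ 2 ≠ 0 := by positivity
    exact (mul_left_cancel₀ this h).symm
  have hder : ∀ v ∈ Ioo 0 s, HasDerivWithinAt (fun v : ℝ => s ^ 2 / v) (-(s ^ 2) / v ^ 2) (Ioo 0 s) v := by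
    intro v hv
    refine HasDerivAt.hasDerivWithinAt ?_
    refine ((hasDerivAt_const v (s ^ 2)).div (hasDerivAt_id v) hv.1.ne').congr_deriv ?_
    simp
  have hcv := integral_image_eq_integral_abs_deriv_smul measurableSet_Ioo hder hinj
    (fun x : ℝ => x ^ (s - 1) * Real.exp (-x))
  rw [himg] at hcv
  have hint2 := (integrableOn_image_iff_integrableOn_abs_deriv_smul measurableSet_Ioo hder hinj
    (fun x : ℝ => x ^ (s - 1) * Real.exp (-x))).1 (by
      rw [himg]; exact hint.mono_set (Ioi_subset_Ioi hs.le))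
  have hle : ∫ x in Ioi s, x ^ (s - 1) * Real.exp (-x) ≤ ∫ x in Ioo 0 s, x ^ (s - 1) * Real.exp (-x) := by
    rw [hcv]
    refine setIntegral_mono_on hint2 (hint.mono_set Ioo_subset_Ioi_self) measurableSet_Ioo fun v hv => ?_
    have hv0 := hv.1
    have hL : 0 < s / v := div_pos hs hv0
    have hL1 : 1 < s / v := by rw [lt_div_iff₀ hv0]; linarith [hv.2]
    have h1 : 2 * Real.log (s / v) ≤ s / v - v / s := by
      have h2 := Real.self_le_sinh_iff.2 (Real.log_nonneg hL1.le)
      rw [Real.sinh_log hL, inv_div] at h2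
      linarith
    have e1 : |(-(s ^ 2) / v ^ 2)| = (s / v) ^ 2 := by
      rw [neg_div, abs_neg, abs_of_pos (by positivity), div_pow]
    have e2 : s ^ 2 / v = v * (s / v) ^ 2 := by field_simp
    rw [smul_eq_mul, e1]
    have e3 : (s ^ 2 / v) ^ (s - 1) = v ^ (s - 1) * (s / v) ^ (2 * (s - 1)) := by
      rw [e2, Real.mul_rpow hv0.le (by positivity), ← Real.rpow_two, ← Real.rpow_mul hL.le]
    have e4 : (s / v) ^ 2 * (s / v) ^ (2 * (s - 1)) = Real.exp (2 * s * Real.log (s / v)) := by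
      rw [← Real.rpow_two, ← Real.rpow_add hL, Real.rpow_def_of_pos hL]
      congr 1
      ring
    calc (s / v) ^ 2 * ((s ^ 2 / v) ^ (s - 1) * Real.exp (-(s ^ 2 / v)))
        = v ^ (s - 1) * (((s / v) ^ 2 * (s / v) ^ (2 * (s - 1))) * Real.exp (-(s ^ 2 / v))) := by
          rw [e3]; ring
      _ = v ^ (s - 1) * Real.exp (2 * s * Real.log (s / v) + -(s ^ 2 / v)) := by
          rw [e4, ← Real.exp_add]
      _ ≤ v ^ (s - 1) * Real.exp (-v) := by
          refine mul_le_mul_of_nonneg_left (Real.exp_le_exp.2 ?_) (by positivity)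
          have e5 : s * (s / v - v / s) = s ^ 2 / v - v := by field_simp
          have := mul_le_mul_of_nonneg_left h1 hs.le
          linarith
  have hsplit : Real.Gamma s = (∫ x in Ioc 0 s, x ^ (s - 1) * Real.exp (-x)) +
      ∫ x in Ioi s, x ^ (s - 1) * Real.exp (-x) := by
    rw [Real.Gamma_eq_integral hs]
    have h1 : ∫ x in Ioi (0 : ℝ), Real.exp (-x) * x ^ (s - 1) =
        ∫ x in Ioi (0 : ℝ), x ^ (s - 1) * Real.exp (-x) :=
      integral_congr_ae (Eventually.of_forall fun R => mul_comm _ _)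
    rw [h1, ← Ioc_union_Ioi_eq_Ioi hs.le, setIntegral_union Ioc_disjoint_Ioi_same measurableSet_Ioi
      (hint.mono_set Ioc_subset_Ioi_self) (hint.mono_set (Ioi_subset_Ioi hs.le))]
  rw [intervalIntegral.integral_of_le hs.le]
  rw [integral_Ioc_eq_integral_Ioo] at hsplit ⊢
  linarith

theorem FF_zero (r : ℝ) (hr : 0 < r) : 1 / 2 ≤ FF r (2 * r) 0 := by
  have h2r : 0 < 2 * r := by positivity
  have hG := Real.Gamma_pos_of_pos h2r
  have h1 : FF r (2 * r) 0 = (∫ u in Ioo (-1 : ℝ) 1, Cr r * (1 - u ^ 2) ^ (r - 1)) * GG r (2 * r) := by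
    unfold FF
    rw [← integral_mul_const]
    refine setIntegral_congr_fun measurableSet_Ioo fun u _ => ?_
    simp only [zero_mul, add_zero, div_one]
  have h2 : (∫ u in Ioo (-1 : ℝ) 1, Cr r * (1 - u ^ 2) ^ (r - 1)) * Real.Gamma (2 * r) = 1 := by
    have h := mass_eq r hr
    have h3 := ofReal_integral_eq_lintegral_ofReal ((w_int r hr).const_mul (Cr r)) (by
      filter_upwards [ae_restrict_mem measurableSet_Ioo] with u hu
      exact mul_nonneg (Cr_pos r hr).le (w_nonneg r u hu).le)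
    rw [← h3, ← ENNReal.ofReal_mul' hG.le] at h
    rwa [ENNReal.ofReal_eq_one] at h
  have h3 := gamma_half (2 * r) h2r
  have h4 : Real.Gamma (2 * r) / 2 ≤ GG r (2 * r) := h3
  have h5 : 0 ≤ ∫ u in Ioo (-1 : ℝ) 1, Cr r * (1 - u ^ 2) ^ (r - 1) :=
    setIntegral_nonneg measurableSet_Ioo fun u hu => mul_nonneg (Cr_pos r hr).le (w_nonneg r u hu).le
  rw [h1]
  nlinarith [mul_le_mul_of_nonneg_left h4 h5]

/-- continuity in `t` -/
theorem FF_cont (r t0 a : ℝ) (hr : 0 < r) (ht : 0 < t0) (ha : |a| < 1) :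
    ContinuousAt (fun t => FF r t a) t0 := by
  unfold FF
  refine continuousAt_of_dominated (bound := fun u => Cr r * (1 - u ^ 2) ^ (r - 1) * Real.Gamma (2 * r))
    ?_ ?_ (((w_int r hr).const_mul (Cr r)).mul_const _) ?_
  · filter_upwards [lt_mem_nhds ht] with t ht'
    exact GG_comp_meas r t a hr ht' ha
  · filter_upwards [lt_mem_nhds ht] with t ht'
    filter_upwards [ae_restrict_mem measurableSet_Ioo] with u hu
    have h1 := (w_nonneg r u hu).le
    have h2 := (Cr_pos r hr).le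
    have h3 : 0 ≤ t / (1 + a * u) := (div_pos ht' (den_pos' a u ha hu)).le
    rw [Real.norm_of_nonneg (mul_nonneg (mul_nonneg h2 h1) (GG_nonneg r _ h3))]
    exact mul_le_mul_of_nonneg_left (GG_le r _ hr h3) (mul_nonneg h2 h1)
  · filter_upwards [ae_restrict_mem measurableSet_Ioo] with u hu
    have hd := den_pos' a u ha hu
    refine ContinuousAt.mul continuousAt_const ?_
    exact ContinuousAt.comp (f := fun t : ℝ => t / (1 + a * u)) (g := GG r) (x := t0)
      (GG_deriv r _ hr (div_pos ht hd)).continuousAt (continuousAt_id.div_const _)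

end Pool.Agent.X145.McKay
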