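import Mathlib

set_option autoImplicit false
open MeasureTheory ProbabilityTheory Filter Topology Set
open scoped ENNReal

namespace Pool.Agent.X145.McKay

/-- unnormalised density -/
noncomputable def gd (r x : ℝ) : ℝ≥0∞ := ENNReal.ofReal (x ^ (r - 1) * Real.exp (-x) / Real.Gamma r)

theorem measurable_gd (r : ℝ) : Measurable (gd r) := by
  unfold gd
  fun_prop

theorem gamma_eq (r : ℝ) : gammaMeasure r 1 = (volume.restrict (Ioi 0)).withDensity (gd r) := by
  unfold gammaMeasure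
  have h1 : gammaPDF r 1 = (Ici (0 : ℝ)).indicator (gd r) := by
    funext x
    by_cases hx : 0 ≤ x
    · rw [gammaPDF_of_nonneg hx, indicator_of_mem (mem_Ici.2 hx)]
      unfold gd
      congr 1
      rw [Real.one_rpow, one_mul]
      ring
    · rw [gammaPDF_of_neg (not_le.1 hx),
        indicator_of_notMem (show x ∉ Ici (0 : ℝ) from fun h => hx (mem_Ici.1 h))]
  rw [h1, withDensity_indicator measurableSet_Ici]
  congr 1
  exact Measure.restrict_congr_set Ioi_ae_eq_Ici.symm

/-- the change of variables -/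
noncomputable def Phi (q : ℝ × ℝ) : ℝ × ℝ := (q.1 * (1 - q.2) / 2, q.1 * (1 + q.2) / 2)

noncomputable def dPhi (p : ℝ × ℝ) : ℝ × ℝ →L[ℝ] ℝ × ℝ :=
  (Matrix.toLin (.finTwoProd ℝ) (.finTwoProd ℝ)
    !![(1 - p.2) / 2, -p.1 / 2; (1 + p.2) / 2, p.1 / 2]).toContinuousLinearMap

theorem hasFDerivAt_Phi (p : ℝ × ℝ) : HasFDerivAt Phi (dPhi p) p := by
  unfold dPhi
  rw [Matrix.toLin_finTwoProd_toContinuousLinearMap]
  have h1 : HasFDerivAt (fun q : ℝ × ℝ => q.1) (ContinuousLinearMap.fst ℝ ℝ ℝ) p := hasFDerivAt_fst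
  have h2 : HasFDerivAt (fun q : ℝ × ℝ => q.2) (ContinuousLinearMap.snd ℝ ℝ ℝ) p := hasFDerivAt_snd
  have h3 : HasFDerivAt (fun q : ℝ × ℝ => q.1 * (1 - q.2) * (1 / 2)) _ p :=
    (h1.mul (h2.const_sub 1)).mul_const (1 / 2)
  have h4 : HasFDerivAt (fun q : ℝ × ℝ => q.1 * (1 + q.2) * (1 / 2)) _ p :=
    (h1.mul (h2.const_add 1)).mul_const (1 / 2)
  have h5 := h3.prodMk h4
  have e : (fun q : ℝ × ℝ => (q.1 * (1 - q.2) * (1 / 2), q.1 * (1 + q.2) * (1 / 2))) = Phi := by
    funext q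
    unfold Phi
    simp only [mul_one_div]
  rw [e] at h5
  refine h5.congr_fderiv ?_
  refine ContinuousLinearMap.ext fun v => ?_
  simp only [ContinuousLinearMap.prod_apply, smul_apply,
    add_apply, neg_apply, ContinuousLinearMap.coe_fst',
    ContinuousLinearMap.coe_snd', smul_eq_mul, Prod.mk.injEq]
  constructor <;> ring

theorem det_dPhi (p : ℝ × ℝ) : (dPhi p).det = p.1 / 2 := by
  unfold dPhi
  rw [LinearMap.det_toContinuousLinearMap, LinearMap.det_toLin, Matrix.det_fin_two_of]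
  ring

theorem Phi_inj : InjOn Phi (Ioi 0 ×ˢ Ioo (-1) 1) := by
  rintro ⟨R, u⟩ ⟨hR, _⟩ ⟨R', u'⟩ _ h
  simp only [Phi, Prod.mk.injEq] at h
  obtain ⟨h1, h2⟩ := h
  have hR' : R = R' := by linarith
  subst hR'
  have hRp : 0 < R := hR
  have h3 : R * u = R * u' := by linarith
  have h4 : u = u' := mul_left_cancel₀ hRp.ne' h3
  rw [h4]

theorem Phi_image : Phi '' (Ioi 0 ×ˢ Ioo (-1) 1) = Ioi 0 ×ˢ Ioi 0 := by
  ext ⟨x, y⟩
  constructor
  · rintro ⟨⟨R, u⟩, ⟨hR, hu⟩, h⟩
    simp only [Phi, Prod.mk.injEq] at h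
    obtain ⟨h1, h2⟩ := h
    simp only [mem_Ioi, mem_Ioo] at hR hu
    refine ⟨?_, ?_⟩
    · simp only [mem_Ioi]
      rw [← h1]
      have := hu.2
      have : 0 < 1 - u := by linarith
      positivity
    · simp only [mem_Ioi]
      rw [← h2]
      have := hu.1
      have : 0 < 1 + u := by linarith
      positivity
  · rintro ⟨hx, hy⟩
    simp only [mem_Ioi] at hx hy
    have hs : 0 < x + y := by linarith
    refine ⟨(x + y, (y - x) / (x + y)), ⟨hs, ?_⟩, ?_⟩
    · simp only [mem_Ioo]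
      constructor
      · rw [lt_div_iff₀ hs]; linarith
      · rw [div_lt_iff₀ hs]; linarith
    · simp only [Phi, Prod.mk.injEq]
      constructor <;> field_simp <;> ring

/-- constant -/
noncomputable def Cr (r : ℝ) : ℝ := 1 / (2 * 4 ^ (r - 1) * Real.Gamma r ^ 2)

theorem main_formula (r : ℝ) (hr : 0 < r) (H : ℝ × ℝ → ℝ≥0∞) (hH : Measurable H) :
    ∫⁻ p, H p ∂((gammaMeasure r 1).prod (gammaMeasure r 1)) =
      ∫⁻ u in Ioo (-1 : ℝ) 1, ∫⁻ R in Ioi (0 : ℝ),
        ENNReal.ofReal (Cr r * (1 - u ^ 2) ^ (r - 1) * (R ^ (2 * r - 1) * Real.exp (-R))) *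
          H (R * (1 - u) / 2, R * (1 + u) / 2) := by
  rw [gamma_eq, prod_withDensity (measurable_gd r) (measurable_gd r),
    lintegral_withDensity_eq_lintegral_mul _ (by have := measurable_gd r; fun_prop) hH,
    Measure.prod_restrict, ← Measure.volume_eq_prod, ← Phi_image,
    lintegral_image_eq_lintegral_abs_det_fderiv_mul volume
      (measurableSet_Ioi.prod measurableSet_Ioo)
      (fun x _ => (hasFDerivAt_Phi x).hasFDerivWithinAt) Phi_inj,
    Measure.volume_eq_prod, ← Measure.prod_restrict, lintegral_prod_symm]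
  · refine setLIntegral_congr_fun measurableSet_Ioo fun u hu => ?_
    refine setLIntegral_congr_fun measurableSet_Ioi fun R hR => ?_
    simp only [mem_Ioi] at hR
    simp only [Pi.mul_apply, det_dPhi]
    rw [← mul_assoc]
    show ENNReal.ofReal |R / 2| * (gd r (R * (1 - u) / 2) * gd r (R * (1 + u) / 2)) *
      H (R * (1 - u) / 2, R * (1 + u) / 2) = _
    congr 1
    unfold gd
    have hu1 : 0 < 1 - u := by linarith [hu.2]
    have hu2 : 0 < 1 + u := by linarith [hu.1]
    have hG := Real.Gamma_pos_of_pos hr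
    rw [abs_of_pos (by positivity), ← ENNReal.ofReal_mul (by positivity),
      ← ENNReal.ofReal_mul (by positivity)]
    congr 1
    have e1 : (R * (1 - u) / 2) ^ (r - 1) * (R * (1 + u) / 2) ^ (r - 1) =
        R ^ (2 * (r - 1)) * (1 - u ^ 2) ^ (r - 1) / 4 ^ (r - 1) := by
      rw [← Real.mul_rpow (by positivity) (by positivity)]
      have : R * (1 - u) / 2 * (R * (1 + u) / 2) = R ^ (2 : ℝ) * (1 - u ^ 2) / 4 := by
        rw [Real.rpow_two]; ring
      rw [this, Real.div_rpow (mul_nonneg (by positivity) (by nlinarith)) (by norm_num),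
        Real.mul_rpow (by positivity) (by nlinarith), ← Real.rpow_mul hR.le]
    have e2 : Real.exp (-(R * (1 - u) / 2)) * Real.exp (-(R * (1 + u) / 2)) = Real.exp (-R) := by
      rw [← Real.exp_add]; congr 1; ring
    have e3 : R ^ (2 * r - 1) = R * R ^ (2 * (r - 1)) := by
      rw [show 2 * r - 1 = 1 + 2 * (r - 1) by ring, Real.rpow_add hR, Real.rpow_one]
    calc R / 2 * ((R * (1 - u) / 2) ^ (r - 1) * Real.exp (-(R * (1 - u) / 2)) / Real.Gamma r *
          ((R * (1 + u) / 2) ^ (r - 1) * Real.exp (-(R * (1 + u) / 2)) / Real.Gamma r))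
        = R / 2 * (((R * (1 - u) / 2) ^ (r - 1) * (R * (1 + u) / 2) ^ (r - 1)) *
          (Real.exp (-(R * (1 - u) / 2)) * Real.exp (-(R * (1 + u) / 2)))) / Real.Gamma r ^ 2 := by
          ring
      _ = _ := by
          rw [e1, e2, e3]
          unfold Cr
          ring
  · refine Measurable.aemeasurable ?_
    have h1 := measurable_gd r
    have h2 : Measurable Phi := by unfold Phi; fun_prop
    simp only [det_dPhi]
    fun_prop

end Pool.Agent.X145.McKay
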