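import Pool.Agent.X145.McKay.Polar

set_option autoImplicit false
open MeasureTheory ProbabilityTheory Filter Topology Set
open scoped ENNReal

namespace Pool.Agent.X145.McKay

theorem lint_gamma (s : ℝ) (hs : 0 < s) :
    ∫⁻ R in Ioi (0 : ℝ), ENNReal.ofReal (R ^ (s - 1) * Real.exp (-R)) = ENNReal.ofReal (Real.Gamma s) := by
  rw [Real.Gamma_eq_integral hs, ofReal_integral_eq_lintegral_ofReal (Real.GammaIntegral_convergent hs)]
  · refine lintegral_congr fun R => ?_
    rw [mul_comm]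
  · filter_upwards [ae_restrict_mem measurableSet_Ioi] with R hR
    simp only [mem_Ioi] at hR
    simp only [Pi.zero_apply]
    positivity

theorem Cr_pos (r : ℝ) (hr : 0 < r) : 0 < Cr r := by
  unfold Cr
  have := Real.Gamma_pos_of_pos hr
  positivity

theorem w_nonneg (r u : ℝ) (hu : u ∈ Ioo (-1 : ℝ) 1) : 0 < (1 - u ^ 2) ^ (r - 1) := by
  have : 0 < 1 - u ^ 2 := by nlinarith [hu.1, hu.2]
  positivity

/-- total mass -/
theorem mass_eq (r : ℝ) (hr : 0 < r) :
    (∫⁻ u in Ioo (-1 : ℝ) 1, ENNReal.ofReal (Cr r * (1 - u ^ 2) ^ (r - 1))) *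
      ENNReal.ofReal (Real.Gamma (2 * r)) = 1 := by
  have h := main_formula r hr (fun _ => 1) measurable_const
  have := isProbabilityMeasure_gammaMeasure hr one_pos
  rw [lintegral_const, one_mul, measure_univ] at h
  rw [h, ← lintegral_mul_const _ (by fun_prop)]
  refine setLIntegral_congr_fun measurableSet_Ioo fun u hu => ?_
  simp only [mul_one]
  rw [← lint_gamma (2 * r) (by positivity), ← lintegral_const_mul _ (by fun_prop)]
  refine setLIntegral_congr_fun measurableSet_Ioi fun R hR => ?_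
  simp only [mem_Ioi] at hR
  rw [← ENNReal.ofReal_mul (mul_nonneg (Cr_pos r hr).le (w_nonneg r u hu).le)]

theorem w_int (r : ℝ) (hr : 0 < r) :
    IntegrableOn (fun u : ℝ => (1 - u ^ 2) ^ (r - 1)) (Ioo (-1) 1) := by
  have h1 : IntegrableOn (fun u : ℝ => Cr r * (1 - u ^ 2) ^ (r - 1)) (Ioo (-1) 1) := by
    refine ⟨(by fun_prop : Measurable fun u : ℝ => Cr r * (1 - u ^ 2) ^ (r - 1)).aestronglyMeasurable, ?_⟩
    rw [hasFiniteIntegral_iff_ofReal]
    · have h := mass_eq r hr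
      by_contra hc
      rw [not_lt, top_le_iff] at hc
      rw [hc, ENNReal.top_mul] at h
      · exact ENNReal.top_ne_one h
      · have := Real.Gamma_pos_of_pos (show 0 < 2 * r by positivity)
        exact (ENNReal.ofReal_pos.2 this).ne'
    · filter_upwards [ae_restrict_mem measurableSet_Ioo] with u hu
      exact mul_nonneg (Cr_pos r hr).le (w_nonneg r u hu).le
  have h2 := h1.const_mul (Cr r)⁻¹
  refine h2.congr (Eventually.of_forall fun u => ?_)
  simp only
  rw [← mul_assoc, inv_mul_cancel₀ (Cr_pos r hr).ne', one_mul]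

theorem w_ii (r : ℝ) (hr : 0 < r) :
    IntervalIntegrable (fun u : ℝ => (1 - u ^ 2) ^ (r - 1)) volume (-1) 1 := by
  rw [intervalIntegrable_iff_integrableOn_Ioo_of_le (by norm_num)]
  exact w_int r hr

/-- the weight -/
noncomputable def nu (r t a u : ℝ) : ℝ :=
  (1 - u ^ 2) ^ (r - 1) * ((1 + a * u) ^ (-(2 * r)) * Real.exp (-(t / (1 + a * u))))

theorem den_pos (a u : ℝ) (ha0 : 0 ≤ a) (ha1 : a < 1) (hu : u ∈ Icc (-1 : ℝ) 1) : 0 < 1 + a * u := by
  nlinarith [hu.1, hu.2]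

theorem nu_ii (r t a : ℝ) (hr : 0 < r) (ha0 : 0 ≤ a) (ha1 : a < 1) (f : ℝ → ℝ)
    (hf : ContinuousOn f (Icc (-1) 1)) :
    IntervalIntegrable (fun u => nu r t a u * f u) volume (-1) 1 := by
  have hc : ContinuousOn (fun u : ℝ => ((1 + a * u) ^ (-(2 * r)) * Real.exp (-(t / (1 + a * u)))) * f u)
      (uIcc (-1) 1) := by
    rw [uIcc_of_le (by norm_num)]
    have hne : ∀ u ∈ Icc (-1 : ℝ) 1, 1 + a * u ≠ 0 := fun u hu => (den_pos a u ha0 ha1 hu).ne'
    have c1 : ContinuousOn (fun u : ℝ => 1 + a * u) (Icc (-1) 1) := by fun_prop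
    have c2 : ContinuousOn (fun u : ℝ => (1 + a * u) ^ (-(2 * r))) (Icc (-1) 1) :=
      c1.rpow_const fun u hu => Or.inl (hne u hu)
    have c3 : ContinuousOn (fun u : ℝ => Real.exp (-(t / (1 + a * u)))) (Icc (-1) 1) :=
      Real.continuous_exp.comp_continuousOn ((continuousOn_const.div c1 hne).neg)
    exact (c2.mul c3).mul hf
  have h := (w_ii r hr).mul_continuousOn hc
  refine h.congr (fun u _ => ?_)
  simp only [nu]
  ring

theorem P_deriv (r t a u : ℝ) (ha0 : 0 ≤ a) (ha1 : a < 1) (hu : u ∈ Ioo (-1 : ℝ) 1) :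
    HasDerivAt (fun u : ℝ => (1 - u ^ 2) ^ r * ((1 + a * u) ^ (-(2 * r)) * Real.exp (-(t / (1 + a * u)))))
      (nu r t a u * (a * (t - 2 * r) - (u / (1 + a * u)) * (2 * r * (1 - a ^ 2) + 2 * a ^ 2 * t) -
        t * a * (1 - a ^ 2) * (u / (1 + a * u)) ^ 2)) u := by
  have hd : 0 < 1 + a * u := den_pos a u ha0 ha1 ⟨hu.1.le, hu.2.le⟩
  have h1 : 0 < 1 - u ^ 2 := by nlinarith [hu.1, hu.2]
  have d1 : HasDerivAt (fun u : ℝ => 1 - u ^ 2) (-(2 * u)) u := by
    simpa using ((hasDerivAt_pow 2 u).const_sub 1)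
  have d2 : HasDerivAt (fun u : ℝ => 1 + a * u) a u := by
    simpa using ((hasDerivAt_id u).const_mul a).const_add 1
  have d3 := d1.rpow_const (p := r) (Or.inl h1.ne')
  have d4 := d2.rpow_const (p := -(2 * r)) (Or.inl hd.ne')
  have d5 : HasDerivAt (fun u : ℝ => -(t / (1 + a * u))) (t * a / (1 + a * u) ^ 2) u := by
    have := ((hasDerivAt_const u t).div d2 hd.ne').neg
    refine this.congr_deriv ?_
    field_simp
    ring
  have d6 := d5.exp
  have d7 := d3.mul (d4.mul d6)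
  refine d7.congr_deriv ?_
  have e1 : (1 - u ^ 2) ^ r = (1 - u ^ 2) ^ (r - 1) * (1 - u ^ 2) := by
    rw [Real.rpow_sub_one h1.ne']
    field_simp
  have e2 : (1 + a * u) ^ (-(2 * r) - 1) = (1 + a * u) ^ (-(2 * r)) / (1 + a * u) :=
    Real.rpow_sub_one hd.ne' _
  simp only [Pi.mul_apply]
  rw [e1, e2]
  unfold nu
  have hd' : 1 + a * u ≠ 0 := hd.ne'
  generalize (1 + a * u) ^ (-(2 * r)) = A
  generalize Real.exp (-(t / (1 + a * u))) = B
  generalize (1 - u ^ 2) ^ (r - 1) = W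
  obtain ⟨D, hD⟩ : ∃ D, D = 1 + a * u := ⟨_, rfl⟩
  rw [← hD] at hd' ⊢
  field_simp
  rw [hD]
  ring

/-- the sign of the first moment -/
theorem sign_lemma (r t a : ℝ) (hr : 0 < r) (ha0 : 0 < a) (ha1 : a < 1) (ht : 0 < t) (ht2 : t ≤ 2 * r) :
    ∫ u in (-1 : ℝ)..1, nu r t a u * (u / (1 + a * u)) < 0 := by
  have hne : ∀ u ∈ Icc (-1 : ℝ) 1, 1 + a * u ≠ 0 := fun u hu => (den_pos a u ha0.le ha1 hu).ne'
  have cq : ContinuousOn (fun u : ℝ => u / (1 + a * u)) (Icc (-1) 1) :=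
    continuousOn_id.div (by fun_prop) hne
  have i0 := nu_ii r t a hr ha0.le ha1 (fun _ => 1) continuousOn_const
  have i1 := nu_ii r t a hr ha0.le ha1 _ cq
  have i2 : IntervalIntegrable (fun u => nu r t a u * (u / (1 + a * u)) ^ 2) volume (-1) 1 :=
    nu_ii r t a hr ha0.le ha1 (fun u => (u / (1 + a * u)) ^ 2) (cq.pow 2)
  have nupos : ∀ u ∈ Ioo (-1 : ℝ) 1, 0 < nu r t a u := by
    intro u hu
    unfold nu
    have := den_pos a u ha0.le ha1 ⟨hu.1.le, hu.2.le⟩
    exact mul_pos (w_nonneg r u hu) (mul_pos (Real.rpow_pos_of_pos this _) (Real.exp_pos _))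
  have hFTC : ∫ u in (-1 : ℝ)..1, nu r t a u * (a * (t - 2 * r) - (u / (1 + a * u)) * (2 * r * (1 - a ^ 2) + 2 * a ^ 2 * t) -
        t * a * (1 - a ^ 2) * (u / (1 + a * u)) ^ 2) = 0 := by
    rw [intervalIntegral.integral_eq_sub_of_hasDerivAt_of_le (by norm_num) (f := fun u : ℝ =>
      (1 - u ^ 2) ^ r * ((1 + a * u) ^ (-(2 * r)) * Real.exp (-(t / (1 + a * u))))) ?_
      (fun u hu => P_deriv r t a u ha0.le ha1 hu) ?_]
    · norm_num [Real.zero_rpow hr.ne']
    · have c1 : ContinuousOn (fun u : ℝ => 1 + a * u) (Icc (-1) 1) := by fun_prop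
      have c2 : ContinuousOn (fun u : ℝ => (1 + a * u) ^ (-(2 * r))) (Icc (-1) 1) :=
        c1.rpow_const fun u hu => Or.inl (hne u hu)
      have c3 : ContinuousOn (fun u : ℝ => Real.exp (-(t / (1 + a * u)))) (Icc (-1) 1) :=
        Real.continuous_exp.comp_continuousOn ((continuousOn_const.div c1 hne).neg)
      have c4 : ContinuousOn (fun u : ℝ => (1 - u ^ 2) ^ r) (Icc (-1) 1) :=
        (by fun_prop : ContinuousOn (fun u : ℝ => 1 - u ^ 2) (Icc (-1) 1)).rpow_const
          fun u _ => Or.inr hr.le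
      exact c4.mul (c2.mul c3)
    · exact nu_ii r t a hr ha0.le ha1 _
        (((continuousOn_const (c := a * (t - 2 * r))).sub (cq.mul continuousOn_const)).sub
          (continuousOn_const.mul (cq.pow 2)))
  have hlin : ∫ u in (-1 : ℝ)..1, nu r t a u * (a * (t - 2 * r) - (u / (1 + a * u)) * (2 * r * (1 - a ^ 2) + 2 * a ^ 2 * t) -
        t * a * (1 - a ^ 2) * (u / (1 + a * u)) ^ 2) =
      a * (t - 2 * r) * (∫ u in (-1 : ℝ)..1, nu r t a u * 1) -
      (2 * r * (1 - a ^ 2) + 2 * a ^ 2 * t) * (∫ u in (-1 : ℝ)..1, nu r t a u * (u / (1 + a * u))) -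
      t * a * (1 - a ^ 2) * (∫ u in (-1 : ℝ)..1, nu r t a u * (u / (1 + a * u)) ^ 2) := by
    rw [← intervalIntegral.integral_const_mul, ← intervalIntegral.integral_const_mul,
      ← intervalIntegral.integral_const_mul,
      ← intervalIntegral.integral_sub (i0.const_mul _) (i1.const_mul _),
      ← intervalIntegral.integral_sub ((i0.const_mul _).sub (i1.const_mul _)) (i2.const_mul _)]
    refine intervalIntegral.integral_congr fun u _ => ?_
    ring
  have p0 : 0 < ∫ u in (-1 : ℝ)..1, nu r t a u * 1 := by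
    refine intervalIntegral.intervalIntegral_pos_of_pos_on i0 (fun u hu => ?_) (by norm_num)
    rw [mul_one]
    exact nupos u hu
  have p2 : 0 < ∫ u in (-1 : ℝ)..1, nu r t a u * (u / (1 + a * u)) ^ 2 := by
    have j1 : IntervalIntegrable (fun u => nu r t a u * (u / (1 + a * u)) ^ 2) volume (-1) 0 :=
      i2.mono_set (by
        rw [uIcc_of_le (by norm_num), uIcc_of_le (by norm_num)]
        exact Icc_subset_Icc le_rfl (by norm_num))
    have j2 : IntervalIntegrable (fun u => nu r t a u * (u / (1 + a * u)) ^ 2) volume 0 1 :=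
      i2.mono_set (by
        rw [uIcc_of_le (by norm_num), uIcc_of_le (by norm_num)]
        exact Icc_subset_Icc (by norm_num) le_rfl)
    rw [← intervalIntegral.integral_add_adjacent_intervals j1 j2]
    refine add_pos ?_ ?_
    · refine intervalIntegral.intervalIntegral_pos_of_pos_on j1 (fun u hu => ?_) (by norm_num)
      have hu' : u ∈ Ioo (-1 : ℝ) 1 := ⟨hu.1, by linarith [hu.2]⟩
      have hd := den_pos a u ha0.le ha1 ⟨hu'.1.le, hu'.2.le⟩
      exact mul_pos (nupos u hu') (by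
        have : u / (1 + a * u) ≠ 0 := div_ne_zero hu.2.ne hd.ne'
        positivity)
    · refine intervalIntegral.intervalIntegral_pos_of_pos_on j2 (fun u hu => ?_) (by norm_num)
      have hu' : u ∈ Ioo (-1 : ℝ) 1 := ⟨by linarith [hu.1], hu.2⟩
      have hd := den_pos a u ha0.le ha1 ⟨hu'.1.le, hu'.2.le⟩
      exact mul_pos (nupos u hu') (by
        have : u / (1 + a * u) ≠ 0 := div_ne_zero hu.1.ne' hd.ne'
        positivity)
  rw [hlin] at hFTC
  by_contra hcon
  push Not at hcon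
  have ha2 : 0 < 1 - a ^ 2 := by nlinarith
  have q1 : a * (t - 2 * r) * (∫ u in (-1 : ℝ)..1, nu r t a u * 1) ≤ 0 :=
    mul_nonpos_of_nonpos_of_nonneg (mul_nonpos_of_nonneg_of_nonpos ha0.le (by linarith)) p0.le
  have q2 : 0 ≤ (2 * r * (1 - a ^ 2) + 2 * a ^ 2 * t) *
      (∫ u in (-1 : ℝ)..1, nu r t a u * (u / (1 + a * u))) := mul_nonneg (by positivity) hcon
  have q3 : 0 < t * a * (1 - a ^ 2) * (∫ u in (-1 : ℝ)..1, nu r t a u * (u / (1 + a * u)) ^ 2) := by
    positivity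
  linarith

end Pool.Agent.X145.McKay
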